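import Pool.Agent.Helper6.NX.GoalsA

/-! Project NX, packet L3: Gibbs inequality, conditional form. -/

set_option autoImplicit false

open Finset

namespace Pool.Agent.Helper75.NX

open Pool.Agent.Helper6.NX

theorem le_law {Ω α : Type} [Fintype Ω] {P : Ω → ℝ} (hP : ∀ ω, 0 ≤ P ω) (X : Ω → α) (ω : Ω) :
    P ω ≤ law P X (X ω) := by
  classical
  unfold law
  have := Finset.single_le_sum (s := univ) (f := fun ω' => if X ω' = X ω then P ω' else 0)
    (fun ω' _ => by split_ifs; exacts [hP ω', le_rfl]) (mem_univ ω)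
  simpa using this

theorem law_nonneg {Ω α : Type} [Fintype Ω] {P : Ω → ℝ} (hP : ∀ ω, 0 ≤ P ω) (X : Ω → α) (a : α) :
    0 ≤ law P X a := by
  classical
  unfold law
  exact Finset.sum_nonneg fun ω' _ => by split_ifs; exacts [hP ω', le_rfl]

theorem sum_law {Ω α : Type} [Fintype Ω] [DecidableEq α] (P : Ω → ℝ) (X : Ω → α) (s : Finset α)
    (hs : ∀ ω, X ω ∈ s) (φ : α → ℝ) :
    ∑ ω, P ω * φ (X ω) = ∑ a ∈ s, law P X a * φ a := by
  have e : ∀ a ∈ s, law P X a * φ a = ∑ ω, if X ω = a then P ω * φ (X ω) else 0 := by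
    intro a _
    have : law P X a = ∑ ω, if X ω = a then P ω else 0 := by
      unfold law
      congr!
    rw [this, Finset.sum_mul]
    refine Finset.sum_congr rfl fun ω _ => ?_
    split_ifs with h
    · rw [h]
    · rw [zero_mul]
  rw [Finset.sum_congr rfl e, Finset.sum_comm]
  refine Finset.sum_congr rfl fun ω _ => ?_
  rw [Finset.sum_ite_eq, if_pos (hs ω)]

theorem thmL3 : S_L3 := by
  classical
  intro Ω α β _ P X Y q hP hq0 hq1 hqpos
  obtain ⟨hP0, hP1⟩ := hP
  set Z : Ω → α × β := fun ω => (X ω, Y ω) with hZ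
  -- the difference as one sum
  have hkey : cent P X Y + ∑ ω, P ω * Real.log (q (Y ω) (X ω)) ≤
      ∑ ω, P ω * (q (Y ω) (X ω) * law P Y (Y ω) / law P Z (Z ω) - 1) := by
    unfold cent ent
    have : -∑ ω, P ω * Real.log (law P Z (Z ω)) - -∑ ω, P ω * Real.log (law P Y (Y ω)) +
        ∑ ω, P ω * Real.log (q (Y ω) (X ω)) =
        ∑ ω, P ω * (-Real.log (law P Z (Z ω)) + Real.log (law P Y (Y ω)) +
          Real.log (q (Y ω) (X ω))) := by
      rw [← Finset.sum_neg_distrib, ← Finset.sum_neg_distrib, ← Finset.sum_sub_distrib,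
        ← Finset.sum_add_distrib]
      refine Finset.sum_congr rfl fun ω _ => ?_
      ring
    rw [this]
    refine Finset.sum_le_sum fun ω _ => ?_
    rcases (hP0 ω).eq_or_lt with h0 | h0
    · rw [← h0]; simp
    · refine mul_le_mul_of_nonneg_left ?_ h0.le
      have h1 : 0 < law P Z (Z ω) := h0.trans_le (le_law hP0 Z ω)
      have h2 : 0 < law P Y (Y ω) := h0.trans_le (le_law hP0 Y ω)
      have h3 := hqpos ω h0
      have h4 : 0 < q (Y ω) (X ω) * law P Y (Y ω) / law P Z (Z ω) := by positivity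
      have h5 := Real.log_le_sub_one_of_pos h4
      rw [Real.log_div (by positivity) h1.ne', Real.log_mul h3.ne' h2.ne'] at h5
      linarith
  have hsum : ∑ ω, P ω * (q (Y ω) (X ω) * law P Y (Y ω) / law P Z (Z ω)) ≤ 1 := by
    set sX : Finset α := univ.image X with hsX
    set sY : Finset β := univ.image Y with hsY
    have hmem : ∀ ω, Z ω ∈ sX ×ˢ sY := fun ω => Finset.mem_product.2
      ⟨Finset.mem_image_of_mem _ (mem_univ _), Finset.mem_image_of_mem _ (mem_univ _)⟩
    rw [sum_law P Z (sX ×ˢ sY) hmem (fun z => q z.2 z.1 * law P Y z.2 / law P Z z)]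
    have hterm : ∀ z ∈ sX ×ˢ sY, law P Z z * (q z.2 z.1 * law P Y z.2 / law P Z z) ≤
        q z.2 z.1 * law P Y z.2 := by
      intro z _
      by_cases h0 : law P Z z = 0
      · rw [h0, zero_mul]
        exact mul_nonneg (hq0 _ _) (law_nonneg hP0 _ _)
      · rw [mul_div_cancel₀ _ h0]
    refine (Finset.sum_le_sum hterm).trans ?_
    rw [Finset.sum_product_right]
    have h1 : ∀ b ∈ sY, ∑ a ∈ sX, q b a * law P Y b ≤ law P Y b * 1 := by
      intro b _
      rw [← Finset.sum_mul, mul_comm]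
      exact mul_le_mul_of_nonneg_left (hq1 b sX) (law_nonneg hP0 _ _)
    refine (Finset.sum_le_sum h1).trans ?_
    rw [← sum_law P Y sY (fun ω => Finset.mem_image_of_mem _ (mem_univ _)) (fun _ => 1)]
    simp [hP1]
  have hfin : ∑ ω, P ω * (q (Y ω) (X ω) * law P Y (Y ω) / law P Z (Z ω) - 1) ≤ 0 := by
    have : ∑ ω, P ω * (q (Y ω) (X ω) * law P Y (Y ω) / law P Z (Z ω) - 1) =
        ∑ ω, P ω * (q (Y ω) (X ω) * law P Y (Y ω) / law P Z (Z ω)) - ∑ ω, P ω := by
      rw [← Finset.sum_sub_distrib]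
      refine Finset.sum_congr rfl fun ω _ => ?_
      ring
    rw [this, hP1]
    linarith
  linarith

end Pool.Agent.Helper75.NX
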